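import Mathlib

namespace Pool.Agent.Results.MP_558b4e_nt.CatalanCoprime

open Finset

/-- Number of good indices. -/
def G (r f x : ℕ) : ℕ :=
  ((Finset.Icc 1 f).filter (fun i => r ^ i ≤ 2 * (x % r ^ i) ∧ x % r ^ i + 2 ≤ r ^ i)).card

theorem kummer (r f k : ℕ) (hr : r.Prime) : r ^ G r f k ∣ catalan k := by
  have := Fact.mk hr
  set b := max (f + 1) (Nat.log r (2 * k) + 1 + (Nat.log r (k + 1) + 1)) with hb
  have hb1 : Nat.log r (2 * k) < b := by
    have := le_max_right (f + 1) (Nat.log r (2 * k) + 1 + (Nat.log r (k + 1) + 1)); omega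
  have hb2 : Nat.log r (k + 1) < b := by
    have := le_max_right (f + 1) (Nat.log r (2 * k) + 1 + (Nat.log r (k + 1) + 1)); omega
  have hb3 : f + 1 ≤ b := le_max_left _ _
  have hA : padicValNat r (k.centralBinom) =
      ((Finset.Ico 1 b).filter (fun i => r ^ i ≤ k % r ^ i + (2 * k - k) % r ^ i)).card := by
    rw [Nat.centralBinom]
    exact padicValNat_choose (by omega) hb1
  have hB : padicValNat r (k + 1) = ((Finset.Ico 1 b).filter (fun i => r ^ i ∣ k + 1)).card := by
    rw [padicValNat_def (by omega)]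
    have := Nat.emultiplicity_eq_card_pow_dvd (m := r) (n := k + 1) (b := b) hr.one_lt.ne'
      (by omega) hb2
    exact multiplicity_eq_of_emultiplicity_eq_some this
  have hcat0 : catalan k ≠ 0 := by
    intro h
    have := succ_mul_catalan_eq_centralBinom k
    rw [h, mul_zero] at this
    exact (Nat.centralBinom_ne_zero k) this.symm
  have hmul : padicValNat r (k.centralBinom) = padicValNat r (k + 1) + padicValNat r (catalan k) := by
    rw [← succ_mul_catalan_eq_centralBinom k, padicValNat.mul (by omega) hcat0]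
  have h2k : 2 * k - k = k := by omega
  rw [h2k] at hA
  have key : G r f k + ((Finset.Ico 1 b).filter (fun i => r ^ i ∣ k + 1)).card ≤
      ((Finset.Ico 1 b).filter (fun i => r ^ i ≤ k % r ^ i + k % r ^ i)).card := by
    unfold G
    rw [← Finset.card_union_of_disjoint]
    · apply Finset.card_le_card
      intro i hi
      rw [Finset.mem_union, Finset.mem_filter, Finset.mem_filter] at hi
      rw [Finset.mem_filter]
      rcases hi with ⟨h1, h2, h3⟩ | ⟨h1, h2⟩
      · rw [Finset.mem_Icc] at h1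
        refine ⟨Finset.mem_Ico.2 ⟨h1.1, by omega⟩, by omega⟩
      · refine ⟨h1, ?_⟩
        rw [Finset.mem_Ico] at h1
        have hri : 2 ≤ r ^ i := by
          calc 2 ≤ r := hr.two_le
            _ = r ^ 1 := (pow_one r).symm
            _ ≤ r ^ i := Nat.pow_le_pow_right hr.pos h1.1
        have : (k + 1) % r ^ i = 0 := Nat.mod_eq_zero_of_dvd h2
        have h5 : k % r ^ i = r ^ i - 1 := by
          have hlt := Nat.mod_lt k (show 0 < r ^ i by omega)
          rw [Nat.add_mod, Nat.mod_eq_of_lt (show 1 < r ^ i by omega)] at this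
          by_contra hne
          have h6 : k % r ^ i + 1 < r ^ i := by omega
          rw [Nat.mod_eq_of_lt h6] at this
          exact absurd this (Nat.succ_ne_zero _)
        omega
    · rw [Finset.disjoint_left]
      intro i hi hi'
      rw [Finset.mem_filter] at hi hi'
      obtain ⟨h1, h2, h3⟩ := hi
      obtain ⟨h4, h5⟩ := hi'
      have : (k + 1) % r ^ i = 0 := Nat.mod_eq_zero_of_dvd h5
      rw [Finset.mem_Icc] at h1
      have hri : 2 ≤ r ^ i := by
        calc 2 ≤ r := hr.two_le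
          _ = r ^ 1 := (pow_one r).symm
          _ ≤ r ^ i := Nat.pow_le_pow_right hr.pos h1.1
      rw [Nat.add_mod, Nat.mod_eq_of_lt (show 1 < r ^ i by omega),
        Nat.mod_eq_of_lt (show k % r ^ i + 1 < r ^ i by omega)] at this
      omega
  have : G r f k ≤ padicValNat r (catalan k) := by omega
  exact (padicValNat_dvd_iff_le hcat0).2 this


theorem sum_range_mul' (a b : ℕ) (F : ℕ → ℚ) :
    ∑ x ∈ range (a * b), F x = ∑ u ∈ range b, ∑ x ∈ range a, F (x + a * u) := by
  induction b with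
  | zero => simp
  | succ b ih =>
    rw [Finset.sum_range_succ, ← ih, Nat.mul_succ, Finset.sum_range_add]
    congr 1
    apply Finset.sum_congr rfl
    intro x _
    rw [add_comm]

theorem G_step (r t x u : ℕ) (hr : 2 ≤ r) (hx : x < r ^ (2 * t)) (hu : u < r ^ 2) :
    G r (2 * t) x + (if r ≤ 2 * (u / r) ∧ u % r + 2 ≤ r then 1 else 0) ≤
      G r (2 * (t + 1)) (x + r ^ (2 * t) * u) := by
  unfold G
  have hmod : ∀ i ∈ Finset.Icc 1 (2 * t), (x + r ^ (2 * t) * u) % r ^ i = x % r ^ i := by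
    intro i hi
    rw [Finset.mem_Icc] at hi
    obtain ⟨c, hc⟩ := Nat.pow_dvd_pow r hi.2
    rw [hc, mul_assoc, Nat.add_mul_mod_self_left]
  split_ifs with h
  · have hlt : x + r ^ (2 * t) * u < r ^ (2 * (t + 1)) := by
      have h1 : r ^ (2 * (t + 1)) = r ^ (2 * t) * r ^ 2 := by ring
      rw [h1]
      calc x + r ^ (2 * t) * u < r ^ (2 * t) + r ^ (2 * t) * u := by omega
        _ = r ^ (2 * t) * (u + 1) := by ring
        _ ≤ r ^ (2 * t) * r ^ 2 := Nat.mul_le_mul_left _ hu
    have hsub : insert (2 * (t + 1)) ((Finset.Icc 1 (2 * t)).filter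
        (fun i => r ^ i ≤ 2 * (x % r ^ i) ∧ x % r ^ i + 2 ≤ r ^ i)) ⊆
        (Finset.Icc 1 (2 * (t + 1))).filter (fun i => r ^ i ≤ 2 * ((x + r ^ (2 * t) * u) % r ^ i) ∧
          (x + r ^ (2 * t) * u) % r ^ i + 2 ≤ r ^ i) := by
      intro i hi
      rw [Finset.mem_insert, Finset.mem_filter] at hi
      rw [Finset.mem_filter]
      rcases hi with rfl | ⟨h1, h2, h3⟩
      · rw [Nat.mod_eq_of_lt hlt]
        refine ⟨Finset.mem_Icc.2 ⟨by omega, le_refl _⟩, ?_, ?_⟩
        · have h1 : r ^ (2 * (t + 1)) = r ^ (2 * t) * (r * r) := by ring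
          rw [h1]
          have h2 : r * (u / r) ≤ u := Nat.mul_div_le u r
          calc r ^ (2 * t) * (r * r) ≤ r ^ (2 * t) * (r * (2 * (u / r))) := by
                apply Nat.mul_le_mul_left
                exact Nat.mul_le_mul_left _ h.1
            _ = 2 * (r ^ (2 * t) * (r * (u / r))) := by ring
            _ ≤ 2 * (r ^ (2 * t) * u) := by
                apply Nat.mul_le_mul_left
                exact Nat.mul_le_mul_left _ h2
            _ ≤ 2 * (x + r ^ (2 * t) * u) := by
                apply Nat.mul_le_mul_left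
                omega
        · have h1 : r ^ (2 * (t + 1)) = r ^ (2 * t) * r ^ 2 := by ring
          rw [h1]
          have hu2 : u + 2 ≤ r ^ 2 := by
            have h4 : u / r < r := by
              rw [Nat.div_lt_iff_lt_mul (by omega)]
              calc u < r ^ 2 := hu
                _ = r * r := by ring
            have h5 : r * (u / r) + u % r = u := Nat.div_add_mod u r
            nlinarith
          have hp : 1 ≤ r ^ (2 * t) := Nat.one_le_pow _ _ (by omega)
          calc x + r ^ (2 * t) * u + 2 ≤ r ^ (2 * t) + r ^ (2 * t) * u + 1 := by omega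
            _ ≤ r ^ (2 * t) + r ^ (2 * t) * u + r ^ (2 * t) := by omega
            _ = r ^ (2 * t) * (u + 2) := by ring
            _ ≤ r ^ (2 * t) * r ^ 2 := Nat.mul_le_mul_left _ hu2
      · rw [hmod i h1]
        rw [Finset.mem_Icc] at h1
        exact ⟨Finset.mem_Icc.2 ⟨h1.1, by omega⟩, h2, h3⟩
    calc _ = (insert (2 * (t + 1)) ((Finset.Icc 1 (2 * t)).filter
        (fun i => r ^ i ≤ 2 * (x % r ^ i) ∧ x % r ^ i + 2 ≤ r ^ i))).card := by
          rw [Finset.card_insert_of_notMem]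
          intro hmem
          rw [Finset.mem_filter, Finset.mem_Icc] at hmem
          omega
      _ ≤ _ := Finset.card_le_card hsub
  · rw [add_zero]
    apply Finset.card_le_card
    intro i hi
    rw [Finset.mem_filter] at hi ⊢
    obtain ⟨h1, h2, h3⟩ := hi
    rw [hmod i h1]
    rw [Finset.mem_Icc] at h1
    exact ⟨Finset.mem_Icc.2 ⟨h1.1, by omega⟩, h2, h3⟩

theorem sum_block (r : ℕ) (hr : 2 ≤ r) :
    ∑ u ∈ range (r ^ 2), (1 / 2 : ℚ) ^ (if r ≤ 2 * (u / r) ∧ u % r + 2 ≤ r then 1 else 0) ≤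
      8 / 9 * (r : ℚ) ^ 2 := by
  rw [pow_two, sum_range_mul']
  have h1 : ∀ v ∈ range r, ∑ x ∈ range r, (1 / 2 : ℚ) ^
      (if r ≤ 2 * ((x + r * v) / r) ∧ (x + r * v) % r + 2 ≤ r then 1 else 0) =
      if r ≤ 2 * v then (r : ℚ) - (r - 1) / 2 else r := by
    intro v hv
    have h2 : ∀ x ∈ range r, (1 / 2 : ℚ) ^
      (if r ≤ 2 * ((x + r * v) / r) ∧ (x + r * v) % r + 2 ≤ r then 1 else 0) =
      if r ≤ 2 * v then (if x < r - 1 then (1 / 2 : ℚ) else 1) else 1 := by
      intro x hx
      rw [Finset.mem_range] at hx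
      have h3 : (x + r * v) / r = v := by
        rw [Nat.add_mul_div_left _ _ (by omega), Nat.div_eq_of_lt hx, zero_add]
      have h4 : (x + r * v) % r = x := by
        rw [Nat.add_mul_mod_self_left, Nat.mod_eq_of_lt hx]
      rw [h3, h4]
      by_cases h5 : r ≤ 2 * v
      · by_cases h6 : x < r - 1
        · rw [if_pos ⟨h5, by omega⟩, if_pos h5, if_pos h6]; norm_num
        · rw [if_neg (by omega), if_pos h5, if_neg h6]; norm_num
      · rw [if_neg (by omega), if_neg h5]; norm_num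
    rw [Finset.sum_congr rfl h2]
    split_ifs with h5
    · obtain ⟨s, rfl⟩ : ∃ s, r = s + 1 := ⟨r - 1, by omega⟩
      rw [Finset.sum_range_succ]
      have : ∀ x ∈ range s, (if x < s + 1 - 1 then (1 / 2 : ℚ) else 1) = 1 / 2 := by
        intro x hx
        rw [Finset.mem_range] at hx
        rw [if_pos (by omega)]
      rw [Finset.sum_congr rfl this]
      simp
      ring
    · simp
  rw [Finset.sum_congr rfl h1]
  have h7 : ∑ v ∈ range r, (if r ≤ 2 * v then (r : ℚ) - (r - 1) / 2 else r) =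
      (r : ℚ) ^ 2 - ((range r).filter (fun v => r ≤ 2 * v)).card * ((r - 1) / 2) := by
    have : ∀ v ∈ range r, (if r ≤ 2 * v then (r : ℚ) - (r - 1) / 2 else r) =
      r - (if r ≤ 2 * v then (((r : ℚ) - 1) / 2) else 0) := by
      intro v _
      split_ifs <;> ring
    rw [Finset.sum_congr rfl this, Finset.sum_sub_distrib, ← Finset.sum_filter]
    simp
    ring
  rw [h7]
  have h8 : ((range r).filter (fun v => r ≤ 2 * v)).card = r - (r + 1) / 2 := by
    have : (range r).filter (fun v => r ≤ 2 * v) = Finset.Ico ((r + 1) / 2) r := by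
      ext v
      rw [Finset.mem_filter, Finset.mem_range, Finset.mem_Ico]
      omega
    rw [this, Nat.card_Ico]
  rw [h8]
  rcases eq_or_lt_of_le hr with h | h
  · subst h
    norm_num
  · have h9 : ((r : ℚ) - 1) / 2 ≤ ((r - (r + 1) / 2 : ℕ) : ℚ) := by
      rw [div_le_iff₀ (by norm_num)]
      have : r ≤ (r - (r + 1) / 2) * 2 + 1 := by omega
      have h10 : (r : ℚ) ≤ ((r - (r + 1) / 2 : ℕ) : ℚ) * 2 + 1 := by exact_mod_cast this
      linarith
    have h11 : (3 : ℚ) ≤ r := by exact_mod_cast h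
    have h12 : (0 : ℚ) ≤ ((r : ℚ) - 1) / 2 := by linarith
    nlinarith [mul_le_mul_of_nonneg_right h9 h12]

theorem sum_G (r t : ℕ) (hr : 2 ≤ r) :
    ∑ x ∈ range (r ^ (2 * t)), (1 / 2 : ℚ) ^ G r (2 * t) x ≤ (8 / 9 * (r : ℚ) ^ 2) ^ t := by
  induction t with
  | zero => simp [G]
  | succ t ih =>
    have h1 : r ^ (2 * (t + 1)) = r ^ (2 * t) * r ^ 2 := by ring
    rw [h1, sum_range_mul']
    calc ∑ u ∈ range (r ^ 2), ∑ x ∈ range (r ^ (2 * t)),
          (1 / 2 : ℚ) ^ G r (2 * (t + 1)) (x + r ^ (2 * t) * u) ≤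
        ∑ u ∈ range (r ^ 2), ∑ x ∈ range (r ^ (2 * t)),
          (1 / 2 : ℚ) ^ (if r ≤ 2 * (u / r) ∧ u % r + 2 ≤ r then 1 else 0) *
            (1 / 2 : ℚ) ^ G r (2 * t) x := by
          apply Finset.sum_le_sum
          intro u hu
          apply Finset.sum_le_sum
          intro x hx
          rw [← pow_add]
          apply pow_le_pow_of_le_one (by norm_num) (by norm_num)
          rw [add_comm]
          exact G_step r t x u hr (Finset.mem_range.1 hx) (Finset.mem_range.1 hu)
      _ = (∑ u ∈ range (r ^ 2), (1 / 2 : ℚ) ^ (if r ≤ 2 * (u / r) ∧ u % r + 2 ≤ r then 1 else 0)) *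
          ∑ x ∈ range (r ^ (2 * t)), (1 / 2 : ℚ) ^ G r (2 * t) x := by
          rw [Finset.sum_mul]
          apply Finset.sum_congr rfl
          intro u _
          rw [Finset.mul_sum]
      _ ≤ (8 / 9 * (r : ℚ) ^ 2) * (8 / 9 * (r : ℚ) ^ 2) ^ t := by
          apply mul_le_mul (sum_block r hr) ih
          · exact Finset.sum_nonneg (fun x _ => by positivity)
          · positivity
      _ = (8 / 9 * (r : ℚ) ^ 2) ^ (t + 1) := by ring

theorem count_bad (r t a : ℕ) (hr : 2 ≤ r) :
    (((range (r ^ (2 * t))).filter (fun x => G r (2 * t) x < a)).card : ℚ) ≤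
      2 ^ a * (8 / 9 * (r : ℚ) ^ 2) ^ t := by
  have h1 : (((range (r ^ (2 * t))).filter (fun x => G r (2 * t) x < a)).card : ℚ) * (1 / 2) ^ a ≤
      ∑ x ∈ range (r ^ (2 * t)), (1 / 2 : ℚ) ^ G r (2 * t) x := by
    rw [← nsmul_eq_mul, ← Finset.sum_const]
    calc ∑ x ∈ (range (r ^ (2 * t))).filter (fun x => G r (2 * t) x < a), (1 / 2 : ℚ) ^ a ≤
        ∑ x ∈ (range (r ^ (2 * t))).filter (fun x => G r (2 * t) x < a),
          (1 / 2 : ℚ) ^ G r (2 * t) x := by
          apply Finset.sum_le_sum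
          intro x hx
          rw [Finset.mem_filter] at hx
          exact pow_le_pow_of_le_one (by norm_num) (by norm_num) hx.2.le
      _ ≤ _ := Finset.sum_le_sum_of_subset_of_nonneg (Finset.filter_subset _ _)
          (fun x _ _ => by positivity)
  have h2 := h1.trans (sum_G r t hr)
  have h3 : (0 : ℚ) < (1 / 2) ^ a := by positivity
  have h4 : (2 : ℚ) ^ a * (1 / 2) ^ a = 1 := by rw [← mul_pow]; norm_num
  calc (((range (r ^ (2 * t))).filter (fun x => G r (2 * t) x < a)).card : ℚ)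
      = 2 ^ a * ((((range (r ^ (2 * t))).filter (fun x => G r (2 * t) x < a)).card : ℚ) *
        (1 / 2) ^ a) := by
        linear_combination (-(((range (r ^ (2 * t))).filter
          (fun x => G r (2 * t) x < a)).card : ℚ)) * h4
    _ ≤ 2 ^ a * (8 / 9 * (r : ℚ) ^ 2) ^ t := by
        apply mul_le_mul_of_nonneg_left h2 (by positivity)


theorem count_prog (A B Q N : ℕ) (S : Finset ℕ) (_hQ : 0 < Q) (hA : Nat.Coprime A Q) :
    ((range N).filter (fun t => (t * A + B) % Q ∈ S)).card ≤ (N / Q + 1) * S.card := by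
  rw [← Finset.card_range (N / Q + 1), ← Finset.card_product]
  apply Finset.card_le_card_of_injOn (fun t => (t / Q, (t * A + B) % Q))
  · intro t ht
    simp only [Finset.coe_filter, Finset.mem_range, Set.mem_ofPred_eq] at ht
    simp only [Finset.coe_product, Set.mem_prod, Finset.mem_coe, Finset.mem_range]
    exact ⟨Nat.lt_succ_of_le (Nat.div_le_div_right ht.1.le), ht.2⟩
  · intro t _ s _ h
    simp only [Prod.mk.injEq] at h
    obtain ⟨h1, h2⟩ := h
    have h3 : t * A ≡ s * A [MOD Q] := Nat.ModEq.add_right_cancel' B h2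
    have h4 : t ≡ s [MOD Q] := Nat.ModEq.cancel_right_of_coprime (by rwa [Nat.coprime_comm] at hA) h3
    have h5 : t % Q = s % Q := h4
    rw [← Nat.div_add_mod t Q, ← Nat.div_add_mod s Q, h1, h5]

theorem count_bad_prog (r s a A B N : ℕ) (hr : r.Prime) (hA : Nat.Coprime A r) :
    (((range N).filter (fun t => G r (2 * s) (t * A + B) < a)).card : ℚ) ≤
      (N + (r : ℚ) ^ (2 * s)) * (2 ^ a * (8 / 9) ^ s) := by
  have hQ : 0 < r ^ (2 * s) := Nat.pow_pos hr.pos
  have hG : ∀ x, G r (2 * s) x = G r (2 * s) (x % r ^ (2 * s)) := by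
    intro x
    unfold G
    congr 1
    apply Finset.filter_congr
    intro i hi
    rw [Finset.mem_Icc] at hi
    rw [Nat.mod_mod_of_dvd _ (Nat.pow_dvd_pow r hi.2)]
  have h1 : (range N).filter (fun t => G r (2 * s) (t * A + B) < a) ⊆
      (range N).filter (fun t => (t * A + B) % r ^ (2 * s) ∈
        (range (r ^ (2 * s))).filter (fun x => G r (2 * s) x < a)) := by
    intro t ht
    rw [Finset.mem_filter] at ht ⊢
    refine ⟨ht.1, ?_⟩
    rw [Finset.mem_filter]
    exact ⟨Finset.mem_range.2 (Nat.mod_lt _ hQ), by rw [← hG]; exact ht.2⟩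
  have h2 := (Finset.card_le_card h1).trans
    (count_prog A B (r ^ (2 * s)) N _ hQ (Nat.Coprime.pow_right _ hA))
  have h3 := count_bad r s a hr.two_le
  have h4 : ((N / r ^ (2 * s) + 1 : ℕ) : ℚ) * (r : ℚ) ^ (2 * s) ≤ N + (r : ℚ) ^ (2 * s) := by
    have : (N / r ^ (2 * s) + 1) * r ^ (2 * s) ≤ N + r ^ (2 * s) := by
      rw [add_mul, one_mul]
      exact Nat.add_le_add_right (Nat.div_mul_le_self _ _) _
    exact_mod_cast this
  calc (((range N).filter (fun t => G r (2 * s) (t * A + B) < a)).card : ℚ) ≤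
      ((N / r ^ (2 * s) + 1 : ℕ) : ℚ) *
        (((range (r ^ (2 * s))).filter (fun x => G r (2 * s) x < a)).card : ℚ) := by
        exact_mod_cast h2
    _ ≤ ((N / r ^ (2 * s) + 1 : ℕ) : ℚ) * (2 ^ a * (8 / 9 * (r : ℚ) ^ 2) ^ s) := by
        apply mul_le_mul_of_nonneg_left h3 (by positivity)
    _ = (((N / r ^ (2 * s) + 1 : ℕ) : ℚ) * (r : ℚ) ^ (2 * s)) * (2 ^ a * (8 / 9) ^ s) := by
        rw [mul_pow, ← pow_mul]; ring
    _ ≤ (N + (r : ℚ) ^ (2 * s)) * (2 ^ a * (8 / 9) ^ s) := by
        apply mul_le_mul_of_nonneg_right h4 (by positivity)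

theorem dvd_t (t K n : ℕ) (ht : t.Prime) (htn : n + 2 ≤ t) (h : t ∣ K.centralBinom) :
    t ∣ catalan (t * K + n) := by
  have := Fact.mk ht
  have h1 : padicValNat t K.centralBinom ≠ 0 := by
    intro h0
    have := (padicValNat_dvd_iff_le (p := t) (n := 1) (Nat.centralBinom_ne_zero K)).1 (by simpa using h)
    omega
  rw [Nat.centralBinom, padicValNat_choose (by omega) (Nat.lt_succ_self _), Finset.card_ne_zero] at h1
  obtain ⟨i, hi⟩ := h1
  rw [Finset.mem_filter, Finset.mem_Ico, show 2 * K - K = K by omega] at hi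
  obtain ⟨⟨hi1, _⟩, hi2⟩ := hi
  have hmod : (t * K + n) % t ^ (i + 1) = t * (K % t ^ i) + n := by
    have hlt : t * (K % t ^ i) + n < t ^ (i + 1) := by
      have := Nat.mod_lt K (Nat.pow_pos (n := i) ht.pos)
      calc t * (K % t ^ i) + n < t * (K % t ^ i) + t := by omega
        _ = t * (K % t ^ i + 1) := by ring
        _ ≤ t * t ^ i := Nat.mul_le_mul_left _ this
        _ = t ^ (i + 1) := by ring
    have : t * K + n = t * (K % t ^ i) + n + t ^ (i + 1) * (K / t ^ i) := by
      conv_lhs => rw [← Nat.mod_add_div K (t ^ i)]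
      ring
    rw [this, Nat.add_mul_mod_self_left, Nat.mod_eq_of_lt hlt]
  have hG : 1 ≤ G t (i + 1) (t * K + n) := by
    unfold G
    rw [Nat.one_le_iff_ne_zero, Finset.card_ne_zero]
    refine ⟨i + 1, ?_⟩
    rw [Finset.mem_filter, Finset.mem_Icc, hmod]
    refine ⟨⟨by omega, le_refl _⟩, ?_, ?_⟩
    · calc t ^ (i + 1) = t * t ^ i := by ring
        _ ≤ t * (K % t ^ i + K % t ^ i) := Nat.mul_le_mul_left _ hi2
        _ = 2 * (t * (K % t ^ i)) := by ring
        _ ≤ 2 * (t * (K % t ^ i) + n) := by omega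
    · have := Nat.mod_lt K (Nat.pow_pos (n := i) ht.pos)
      calc t * (K % t ^ i) + n + 2 ≤ t * (K % t ^ i) + t := by omega
        _ = t * (K % t ^ i + 1) := by ring
        _ ≤ t * t ^ i := Nat.mul_le_mul_left _ this
        _ = t ^ (i + 1) := by ring
  calc t = t ^ 1 := (pow_one t).symm
    _ ∣ t ^ G t (i + 1) (t * K + n) := Nat.pow_dvd_pow t hG
    _ ∣ _ := kummer t _ _ ht

theorem dvd_p (p e f y n : ℕ) (hp : p.Prime) (hn : n + 2 ≤ p ^ e) (h : e ≤ G p f y) :
    p ^ e ∣ catalan (p ^ e * y + n) := by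
  have hmod : ∀ i, (p ^ e * y + n) % p ^ (e + i) = p ^ e * (y % p ^ i) + n := by
    intro i
    have hlt : p ^ e * (y % p ^ i) + n < p ^ (e + i) := by
      have := Nat.mod_lt y (Nat.pow_pos (n := i) hp.pos)
      calc p ^ e * (y % p ^ i) + n < p ^ e * (y % p ^ i) + p ^ e := by omega
        _ = p ^ e * (y % p ^ i + 1) := by ring
        _ ≤ p ^ e * p ^ i := Nat.mul_le_mul_left _ this
        _ = p ^ (e + i) := by ring
    have : p ^ e * y + n = p ^ e * (y % p ^ i) + n + p ^ (e + i) * (y / p ^ i) := by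
      conv_lhs => rw [← Nat.mod_add_div y (p ^ i)]
      ring
    rw [this, Nat.add_mul_mod_self_left, Nat.mod_eq_of_lt hlt]
  have hG : G p f y ≤ G p (e + f) (p ^ e * y + n) := by
    unfold G
    apply Finset.card_le_card_of_injOn (fun i => e + i)
    · intro i hi
      simp only [Finset.coe_filter, Finset.mem_Icc, Set.mem_ofPred_eq] at hi ⊢
      obtain ⟨⟨h1, h2⟩, h3, h4⟩ := hi
      rw [hmod]
      refine ⟨⟨by omega, by omega⟩, ?_, ?_⟩
      · calc p ^ (e + i) = p ^ e * p ^ i := by ring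
          _ ≤ p ^ e * (2 * (y % p ^ i)) := Nat.mul_le_mul_left _ h3
          _ = 2 * (p ^ e * (y % p ^ i)) := by ring
          _ ≤ 2 * (p ^ e * (y % p ^ i) + n) := by omega
      · calc p ^ e * (y % p ^ i) + n + 2 ≤ p ^ e * (y % p ^ i) + p ^ e := by omega
          _ = p ^ e * (y % p ^ i + 1) := by ring
          _ ≤ p ^ e * p ^ i := Nat.mul_le_mul_left _ (by omega)
          _ = p ^ (e + i) := by ring
    · intro i _ j _ hij
      simpa using hij
  exact (Nat.pow_dvd_pow p (h.trans hG)).trans (kummer p _ _ hp)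


theorem primes_exist (X : ℕ) (hX : X ≠ 0) :
    ∃ p : ℕ → ℕ, ∀ j, (p j).Prime ∧ 2 ^ j * X < p j ∧ p j ≤ 2 ^ (j + 1) * X := by
  have h : ∀ j : ℕ, ∃ q : ℕ, q.Prime ∧ 2 ^ j * X < q ∧ q ≤ 2 ^ (j + 1) * X := by
    intro j
    obtain ⟨q, h1, h2, h3⟩ := Nat.exists_prime_lt_and_le_two_mul (2 ^ j * X) (by positivity)
    exact ⟨q, h1, h2, by rw [pow_succ]; linarith⟩
  choose p hp using h
  exact ⟨p, hp⟩

theorem analytic (C : ℝ) : ∃ e0 : ℕ, ∀ e ≥ e0,
    C * (((e : ℝ) + 1) * (2 * (8 / 9) ^ 7) ^ e) < Real.log 4 := by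
  have h1 : Filter.Tendsto (fun e : ℕ => (e : ℝ) * (2 * (8 / 9) ^ 7 : ℝ) ^ e) Filter.atTop (nhds 0) :=
    tendsto_self_mul_const_pow_of_lt_one (by positivity) (by norm_num)
  have h2 : Filter.Tendsto (fun e : ℕ => (2 * (8 / 9) ^ 7 : ℝ) ^ e) Filter.atTop (nhds 0) :=
    tendsto_pow_atTop_nhds_zero_of_lt_one (by positivity) (by norm_num)
  have h3 : Filter.Tendsto (fun e : ℕ => C * (((e : ℝ) + 1) * (2 * (8 / 9) ^ 7) ^ e))
      Filter.atTop (nhds (C * (0 + 0))) := by
    apply Filter.Tendsto.const_mul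
    have := h1.add h2
    refine this.congr (fun e => by ring)
  rw [add_zero, mul_zero] at h3
  have h4 : (0 : ℝ) < Real.log 4 := Real.log_pos (by norm_num)
  obtain ⟨e0, he0⟩ := Filter.eventually_atTop.1 (h3.eventually (gt_mem_nhds h4))
  exact ⟨e0, he0⟩

/-- many prime divisors of the central binomial coefficient -/
theorem many_primes (K : ℕ) (hK : 4 ≤ K) :
    (K : ℝ) * Real.log 4 < ((K.centralBinom.primeFactors.card : ℝ) + 1) * Real.log (2 * K) := by
  have h1 : K.centralBinom ≤ (2 * K) ^ K.centralBinom.primeFactors.card := by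
    conv_lhs => rw [← Nat.prod_factorization_pow_eq_self (Nat.centralBinom_ne_zero K)]
    rw [Finsupp.prod, Nat.support_factorization, ← Finset.prod_const]
    apply Finset.prod_le_prod
    · intro i _; positivity
    · intro i _
      rw [Nat.centralBinom]
      exact Nat.pow_factorization_choose_le (by omega)
  have h2 : 4 ^ K < (2 * K) ^ (K.centralBinom.primeFactors.card + 1) := by
    calc 4 ^ K < K * K.centralBinom := Nat.four_pow_lt_mul_centralBinom K hK
      _ ≤ (2 * K) * (2 * K) ^ K.centralBinom.primeFactors.card :=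
          Nat.mul_le_mul (by omega) h1
      _ = _ := by ring
  have h3 : ((4 : ℝ)) ^ K < (2 * (K : ℝ)) ^ (K.centralBinom.primeFactors.card + 1) := by
    exact_mod_cast h2
  have h4 := Real.log_lt_log (by positivity) h3
  rw [Real.log_pow, Real.log_pow] at h4
  push_cast at h4
  exact h4

theorem numeric (n K M e : ℕ) (c b γ : ℝ) (hM2 : 2 ≤ M) (hK : K = M ^ e) (hK4 : 4 ≤ K)
    (hγ : γ = (2 * (8 / 9) ^ 7) ^ e)
    (hae : 5 * ((n : ℝ) + 31) * Real.log M * (((e : ℝ) + 1) * γ) < Real.log 4)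
    (h2 : (K : ℝ) * Real.log 4 < (c + 1) * Real.log (2 * K))
    (h3 : b ≤ ((n : ℝ) + 30) + ((n : ℝ) + 28) * ((3 * (K : ℝ) + 1) * γ)) (h4 : c ≤ b) : False := by
  have hMr : (2 : ℝ) ≤ M := by exact_mod_cast hM2
  have hKr : (4 : ℝ) ≤ K := by exact_mod_cast hK4
  have hKg : (1 : ℝ) ≤ K * γ := by
    rw [hK, hγ]; push_cast
    rw [← mul_pow]
    apply one_le_pow₀
    have : (1 : ℝ) / 2 ≤ 2 * (8 / 9) ^ 7 := by norm_num
    nlinarith
  have hγ0 : (0 : ℝ) < γ := by rw [hγ]; positivity
  have h5 : c + 1 ≤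
      5 * (n + 31) * (K * γ) := by
    have h6 : (3 * (K : ℝ) + 1) * γ ≤ 4 * (K * γ) := by
      nlinarith
    have h7 : (0 : ℝ) ≤ n := Nat.cast_nonneg n
    calc c + 1 ≤ (n + 31) + (n + 28) * ((3 * K + 1) * γ) := by linarith
      _ ≤ (n + 31) * (K * γ) + (n + 31) * (4 * (K * γ)) := by
          apply add_le_add
          · nlinarith
          · apply mul_le_mul (by linarith) h6 (by positivity) (by positivity)
      _ = _ := by ring
  have hlogM : 0 < Real.log M := Real.log_pos (by linarith)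
  have h8 : Real.log (2 * K) ≤ (e + 1) * Real.log M := by
    rw [Real.log_mul (by norm_num) (by positivity), hK]
    push_cast
    rw [Real.log_pow]
    have : Real.log 2 ≤ Real.log M := Real.log_le_log (by norm_num) hMr
    linarith
  have h9 : (K : ℝ) * Real.log 4 < K * (5 * (n + 31) * Real.log M * ((e + 1) * γ)) := by
    calc (K : ℝ) * Real.log 4 < (c + 1) * Real.log (2 * K) := h2
      _ ≤ (5 * (n + 31) * (K * γ)) * ((e + 1) * Real.log M) := by
          apply mul_le_mul h5 h8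
          · apply Real.log_nonneg; linarith
          · positivity
      _ = _ := by ring
  have h10 := lt_of_mul_lt_mul_left h9 (by positivity)
  linarith

theorem main (n : ℕ) (hn : 0 < n) : ∃ m : ℕ, 0 < m ∧ Nat.Coprime m n ∧ m * n ∣ catalan (m + n) := by
  obtain ⟨X, hX, hnX⟩ : ∃ X : ℕ, 2 ^ 28 ≤ X ∧ n + 2 ≤ X :=
    ⟨2 ^ 28 + (n + 2), Nat.le_add_right _ _, Nat.le_add_left _ _⟩
  have hX1 : 1 ≤ X := by omega
  obtain ⟨p, hp⟩ := primes_exist X (by omega)
  have hpp : ∀ j, (p j).Prime := fun j => (hp j).1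
  have hpX : ∀ j, X < p j := fun j => lt_of_le_of_lt (Nat.le_mul_of_pos_left _ (by positivity)) (hp j).2.1
  have hmono : ∀ i j, i < j → p i < p j := by
    intro i j hij
    calc p i ≤ 2 ^ (i + 1) * X := (hp i).2.2
      _ ≤ 2 ^ j * X := Nat.mul_le_mul_right _ (Nat.pow_le_pow_right (by norm_num) hij)
      _ < p j := (hp j).2.1
  have hne : ∀ i j, i ≠ j → p i ≠ p j := by
    intro i j hij
    rcases Nat.lt_or_gt_of_ne hij with h | h
    · exact (hmono i j h).ne
    · exact (hmono j i h).ne'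
  obtain ⟨M, hM⟩ : ∃ M : ℕ, M = ∏ j ∈ range 28, p j := ⟨_, rfl⟩
  have hXM : X ^ 28 ≤ M := by
    rw [hM]
    calc X ^ 28 = ∏ _j ∈ range 28, X := by rw [Finset.prod_const, Finset.card_range]
      _ ≤ ∏ j ∈ range 28, p j :=
        Finset.prod_le_prod (fun _ _ => Nat.zero_le _) (fun j _ => (hpX j).le)
  have hpM : ∀ j ∈ range 28, p j ^ 14 ≤ M := by
    intro j hj
    rw [Finset.mem_range] at hj
    have h1 : p j ≤ X ^ 2 := by
      calc p j ≤ 2 ^ (j + 1) * X := (hp j).2.2
        _ ≤ 2 ^ 28 * X := Nat.mul_le_mul_right _ (Nat.pow_le_pow_right (by norm_num) hj)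
        _ ≤ X * X := Nat.mul_le_mul_right _ hX
        _ = X ^ 2 := by ring
    calc p j ^ 14 ≤ (X ^ 2) ^ 14 := Nat.pow_le_pow_left h1 14
      _ = X ^ 28 := by ring
      _ ≤ M := hXM
  clear hX
  have hM2 : 2 ≤ M := by
    calc 2 ≤ X := by omega
      _ = X ^ 1 := (pow_one X).symm
      _ ≤ X ^ 28 := Nat.pow_le_pow_right hX1 (by norm_num)
      _ ≤ M := hXM
  obtain ⟨e0, he0⟩ := analytic (5 * (n + 31) * Real.log M)
  obtain ⟨e, he⟩ : ∃ e : ℕ, e = e0 + n + 2 := ⟨_, rfl⟩
  have hae := he0 e (by omega)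
  obtain ⟨K, hK⟩ : ∃ K : ℕ, K = M ^ e := ⟨_, rfl⟩
  have hKprod : K = ∏ j ∈ range 28, p j ^ e := by
    rw [hK, hM, Finset.prod_pow]
  have hK4 : 4 ≤ K := by
    rw [hK]
    calc 4 = 2 ^ 2 := by norm_num
      _ ≤ M ^ 2 := Nat.pow_le_pow_left hM2 2
      _ ≤ M ^ e := Nat.pow_le_pow_right (by omega) (by omega)
  -- cofactors
  obtain ⟨A, hAdef⟩ : ∃ A : ℕ → ℕ, ∀ j, A j = ∏ i ∈ (range 28).erase j, p i ^ e :=
    ⟨_, fun _ => rfl⟩
  have hKA : ∀ j ∈ range 28, K = p j ^ e * A j := by
    intro j hj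
    rw [hKprod, hAdef, ← Finset.mul_prod_erase _ _ hj]
  have hAcop : ∀ j ∈ range 28, Nat.Coprime (A j) (p j) := by
    intro j _
    rw [hAdef]
    apply Nat.Coprime.prod_left
    intro i hi
    rw [Finset.mem_erase] at hi
    exact Nat.Coprime.pow_left _ ((Nat.coprime_primes (hpp i) (hpp j)).2 (hne i j hi.1))
  have hKcop : ∀ r, r.Prime → r ∣ n → Nat.Coprime K r := by
    intro r hr hrn
    rw [hKprod]
    apply Nat.Coprime.prod_left
    intro i _
    apply Nat.Coprime.pow_left
    rw [Nat.coprime_primes (hpp i) hr]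
    have := Nat.le_of_dvd hn hrn
    have := hpX i
    omega
  obtain ⟨g, hg⟩ : ∃ g : ℚ, g = (2 * (8 / 9) ^ 7) ^ e := ⟨_, rfl⟩
  have hg0 : 0 ≤ g := by rw [hg]; positivity
  -- bad sets
  obtain ⟨N, hN⟩ : ∃ N : ℕ, N = 2 * K + 1 := ⟨_, rfl⟩
  obtain ⟨Bad1, hBad1⟩ : ∃ B : ℕ → Finset ℕ, ∀ j, B j =
    (range N).filter (fun t => G (p j) (2 * (7 * e)) (t * A j + 0) < e) := ⟨_, fun _ => rfl⟩
  obtain ⟨Bad2, hBad2⟩ : ∃ B : ℕ → Finset ℕ, ∀ r, B r =
    (range N).filter (fun t => G r (2 * (7 * e)) (t * K + n) < e) := ⟨_, fun _ => rfl⟩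
  have hb1 : ∀ j ∈ range 28, ((Bad1 j).card : ℚ) ≤ (3 * K + 1) * g := by
    intro j hj
    have h1 := count_bad_prog (p j) (7 * e) e (A j) 0 N (hpp j) (hAcop j hj)
    rw [hBad1]
    refine h1.trans ?_
    have h2 : (p j) ^ (2 * (7 * e)) ≤ K := by
      calc (p j) ^ (2 * (7 * e)) = ((p j) ^ 14) ^ e := by rw [← pow_mul]; ring_nf
        _ ≤ M ^ e := Nat.pow_le_pow_left (hpM j hj) e
        _ = K := hK.symm
    have h3 : ((p j : ℚ)) ^ (2 * (7 * e)) ≤ K := by exact_mod_cast h2
    have h4 : (2 : ℚ) ^ e * (8 / 9) ^ (7 * e) = g := by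
      rw [hg, mul_pow, ← pow_mul]
    rw [h4]
    apply mul_le_mul_of_nonneg_right _ hg0
    have : (N : ℚ) = 2 * K + 1 := by rw [hN]; push_cast; ring
    rw [this]
    linarith
  have hb2 : ∀ r ∈ n.primeFactors, ((Bad2 r).card : ℚ) ≤ (3 * K + 1) * g := by
    intro r hr
    have hrp : r.Prime := Nat.prime_of_mem_primeFactors hr
    have hrn : r ∣ n := Nat.dvd_of_mem_primeFactors hr
    have h1 := count_bad_prog r (7 * e) e K n N hrp (hKcop r hrp hrn)
    rw [hBad2]
    refine h1.trans ?_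
    have hrM : r ^ 14 ≤ M := by
      have h5 : r ≤ X := by have := Nat.le_of_dvd hn hrn; omega
      calc r ^ 14 ≤ X ^ 14 := Nat.pow_le_pow_left h5 14
        _ ≤ X ^ 28 := Nat.pow_le_pow_right hX1 (by norm_num)
        _ ≤ M := hXM
    have h2 : r ^ (2 * (7 * e)) ≤ K := by
      calc r ^ (2 * (7 * e)) = (r ^ 14) ^ e := by rw [← pow_mul]; ring_nf
        _ ≤ M ^ e := Nat.pow_le_pow_left hrM e
        _ = K := hK.symm
    have h3 : ((r : ℚ)) ^ (2 * (7 * e)) ≤ K := by exact_mod_cast h2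
    have h4 : (2 : ℚ) ^ e * (8 / 9) ^ (7 * e) = g := by
      rw [hg, mul_pow, ← pow_mul]
    rw [h4]
    apply mul_le_mul_of_nonneg_right _ hg0
    have : (N : ℚ) = 2 * K + 1 := by rw [hN]; push_cast; ring
    rw [this]
    linarith
  obtain ⟨Bad, hBaddef⟩ : ∃ B : Finset ℕ, B = range (n + 2) ∪ (range 28).image p ∪
    (range 28).biUnion Bad1 ∪ n.primeFactors.biUnion Bad2 := ⟨_, rfl⟩
  have hBad : ((Bad.card : ℕ) : ℚ) ≤ (n + 30) + (n + 28) * ((3 * K + 1) * g) := by
    have h1 : Bad.card ≤ (n + 2) + 28 + ∑ j ∈ range 28, (Bad1 j).card +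
        ∑ r ∈ n.primeFactors, (Bad2 r).card := by
      rw [hBaddef]
      calc (range (n + 2) ∪ (range 28).image p ∪
          (range 28).biUnion Bad1 ∪ n.primeFactors.biUnion Bad2).card ≤ (range (n + 2) ∪ (range 28).image p ∪ (range 28).biUnion Bad1).card +
            (n.primeFactors.biUnion Bad2).card := Finset.card_union_le _ _
        _ ≤ ((range (n + 2) ∪ (range 28).image p).card + ((range 28).biUnion Bad1).card) +
            (n.primeFactors.biUnion Bad2).card := Nat.add_le_add_right (Finset.card_union_le _ _) _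
        _ ≤ (((range (n + 2)).card + ((range 28).image p).card) + ((range 28).biUnion Bad1).card) +
            (n.primeFactors.biUnion Bad2).card :=
              Nat.add_le_add_right (Nat.add_le_add_right (Finset.card_union_le _ _) _) _
        _ ≤ _ := by
          have h2 : ((range 28).image p).card ≤ 28 := by
            simpa using (Finset.card_image_le (s := range 28) (f := p))
          have h3 : ((range 28).biUnion Bad1).card ≤ ∑ j ∈ range 28, (Bad1 j).card :=
            Finset.card_biUnion_le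
          have h4 : (n.primeFactors.biUnion Bad2).card ≤ ∑ r ∈ n.primeFactors, (Bad2 r).card :=
            Finset.card_biUnion_le
          rw [Finset.card_range]
          omega
    have h5 : (∑ j ∈ range 28, ((Bad1 j).card : ℚ)) ≤ 28 * ((3 * K + 1) * g) := by
      have := Finset.sum_le_sum hb1
      rw [Finset.sum_const, Finset.card_range, nsmul_eq_mul] at this
      exact_mod_cast this
    have h6 : (∑ r ∈ n.primeFactors, ((Bad2 r).card : ℚ)) ≤ n * ((3 * K + 1) * g) := by
      have := Finset.sum_le_sum hb2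
      rw [Finset.sum_const, nsmul_eq_mul] at this
      refine this.trans ?_
      have hKg0 : 0 ≤ (3 * (K : ℚ) + 1) * g :=
        mul_nonneg (by linarith [(Nat.cast_nonneg K : (0 : ℚ) ≤ (K : ℚ))]) hg0
      apply mul_le_mul_of_nonneg_right _ hKg0
      have : n.primeFactors ⊆ Finset.Icc 1 n := by
        intro r hr
        rw [Finset.mem_Icc]
        exact ⟨(Nat.prime_of_mem_primeFactors hr).one_le, Nat.le_of_mem_primeFactors hr⟩
      have := Finset.card_le_card this
      rw [Nat.card_Icc] at this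
      exact_mod_cast this
    have h7 : ((Bad.card : ℕ) : ℚ) ≤ ((n : ℚ) + 2) + 28 + ∑ j ∈ range 28, ((Bad1 j).card : ℚ) +
        ∑ r ∈ n.primeFactors, ((Bad2 r).card : ℚ) := by exact_mod_cast h1
    linarith
  have hex : ∃ t ∈ K.centralBinom.primeFactors, t ∉ Bad := by
    by_contra hcon
    push Not at hcon
    have h1 : K.centralBinom.primeFactors.card ≤ Bad.card := Finset.card_le_card hcon
    have h2 := many_primes K hK4
    obtain ⟨γ, hγ⟩ : ∃ γ : ℝ, γ = (2 * (8 / 9) ^ 7) ^ e := ⟨_, rfl⟩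
    have hγg : γ = ((g : ℚ) : ℝ) := by rw [hγ, hg]; push_cast; rfl
    have h3 : (Bad.card : ℝ) ≤ (n + 30) + (n + 28) * ((3 * K + 1) * γ) := by
      rw [hγg]
      exact_mod_cast hBad
    rw [← hγ] at hae
    have h4 : (K.centralBinom.primeFactors.card : ℝ) ≤ (Bad.card : ℝ) := by exact_mod_cast h1
    exact numeric n K M e _ _ γ hM2 hK hK4 hγ hae h2 h3 h4
  obtain ⟨t, ht, htB⟩ := hex
  have htp : t.Prime := Nat.prime_of_mem_primeFactors ht
  have htd : t ∣ K.centralBinom := Nat.dvd_of_mem_primeFactors ht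
  have ht2K : t < N := by
    have h1 : t ∣ (2 * K).factorial := by
      have h2 : K.centralBinom ∣ (2 * K).factorial := by
        rw [Nat.centralBinom]
        have := Nat.choose_mul_factorial_mul_factorial (show K ≤ 2 * K by omega)
        rw [mul_assoc] at this
        exact Dvd.intro _ this
      exact htd.trans h2
    have := (htp.dvd_factorial).1 h1
    rw [hN]; omega
  simp only [hBaddef, Finset.mem_union, Finset.mem_range, Finset.mem_image, Finset.mem_biUnion,
    not_or, not_exists, not_and, not_lt] at htB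
  obtain ⟨⟨⟨h1, h2⟩, h3⟩, h4⟩ := htB
  have hg1 : ∀ j ∈ range 28, e ≤ G (p j) (2 * (7 * e)) (t * A j) := by
    intro j hj
    by_contra hcon
    apply h3 j (Finset.mem_range.1 hj)
    simp only [hBad1, Finset.mem_filter, Finset.mem_range]
    exact ⟨ht2K, by simpa using hcon⟩
  have hg2 : ∀ r ∈ n.primeFactors, e ≤ G r (2 * (7 * e)) (t * K + n) := by
    intro r hr
    by_contra hcon
    apply h4 r hr
    simp only [hBad2, Finset.mem_filter, Finset.mem_range]
    exact ⟨ht2K, by simpa using hcon⟩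
  have hct : Nat.Coprime t n := by
    rw [Nat.Prime.coprime_iff_not_dvd htp]
    intro h
    have := Nat.le_of_dvd hn h
    omega
  have hcK : Nat.Coprime K n := by
    rw [hKprod]
    apply Nat.Coprime.prod_left
    intro i _
    apply Nat.Coprime.pow_left
    rw [Nat.Prime.coprime_iff_not_dvd (hpp i)]
    intro h
    have := Nat.le_of_dvd hn h
    have := hpX i
    omega
  have hctK : Nat.Coprime t K := by
    rw [hKprod]
    apply Nat.Coprime.prod_right
    intro i hi
    apply Nat.Coprime.pow_right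
    rw [Nat.coprime_primes htp (hpp i)]
    intro h
    exact h2 i (Finset.mem_range.1 hi) h.symm
  refine ⟨t * K, Nat.mul_pos htp.pos (by omega), Nat.Coprime.mul_left hct hcK, ?_⟩
  apply Nat.Coprime.mul_dvd_of_dvd_of_dvd (Nat.Coprime.mul_left hct hcK)
  · apply Nat.Coprime.mul_dvd_of_dvd_of_dvd hctK
    · exact dvd_t t K n htp (by omega) htd
    · conv_lhs => rw [hKprod]
      apply Finset.prod_dvd_of_isRelPrime
      · intro i _ j _ hij
        have h5 : Nat.Coprime (p i ^ e) (p j ^ e) :=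
          Nat.Coprime.pow _ _ ((Nat.coprime_primes (hpp i) (hpp j)).2 (hne i j hij))
        exact Nat.coprime_iff_isRelPrime.1 h5
      · intro j hj
        have h5 := dvd_p (p j) e (2 * (7 * e)) (t * A j) n (hpp j) ?_ (hg1 j hj)
        · have h6 : p j ^ e * (t * A j) + n = t * K + n := by
            rw [hKA j hj]; ring
          rw [h6] at h5
          exact h5
        · calc n + 2 ≤ X := hnX
            _ ≤ p j := (hpX j).le
            _ = p j ^ 1 := (pow_one _).symm
            _ ≤ p j ^ e := Nat.pow_le_pow_right (hpp j).pos (by omega)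
  · rw [Nat.dvd_iff_prime_pow_dvd_dvd]
    intro r j hr hrj
    by_cases hj : j = 0
    · subst hj; simp
    · have hrn : r ∈ n.primeFactors := by
        rw [Nat.mem_primeFactors]
        exact ⟨hr, (dvd_pow_self r hj).trans hrj, hn.ne'⟩
      have h5 : j ≤ e := by
        have h6 := Nat.le_of_dvd hn hrj
        have h7 : j < r ^ j := Nat.lt_pow_self hr.one_lt
        omega
      exact ((Nat.pow_dvd_pow r (h5.trans (hg2 r hrn)))).trans (kummer r _ _ hr)

theorem result : ∀ n : ℕ, 0 < n →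
    ∃ m : ℕ, 0 < m ∧ Nat.Coprime m n ∧ m * n ∣ catalan (m + n) := main

end Pool.Agent.Results.MP_558b4e_nt.CatalanCoprime
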